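import Mathlib

set_option autoImplicit false

/-!
# Flows on finite trees

Divergences of functions on the oriented edges of a finite tree: the divergence is a bijection between
edge functions and vertex functions with sum zero, the value at an edge being the sum of the
divergences on one side of it.
-/

namespace Pool.Agent.Y825.TP

open SimpleGraph Finset

open scoped Classical in
/-- Inflow minus outflow of `f` at the vertex `v`. -/
noncomputable def div {V E G : Type} [Fintype E] [AddCommGroup G] (tail head : E → V) (f : E → G)
    (v : V) : G :=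
  (∑ e with head e = v, f e) - ∑ e with tail e = v, f e

section
variable {V G : Type} [Fintype V] [AddCommGroup G] {T : SimpleGraph V} [Fintype T.edgeSet]
  {tail head : T.edgeSet → V}

/-- the side of the head of an edge -/
def side (T : SimpleGraph V) (head : T.edgeSet → V) (e : T.edgeSet) (w : V) : Prop :=
  (T.deleteEdges {e.1}).Reachable (head e) w

theorem side_head (e : T.edgeSet) : side T head e (head e) := Reachable.refl _

theorem adj_of (ho : ∀ e, s(tail e, head e) = e.1) (e : T.edgeSet) : T.Adj (tail e) (head e) := by
  have := e.2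
  rw [← ho e, mem_edgeSet] at this
  exact this

theorem not_side_tail (hT : T.IsTree) (ho : ∀ e, s(tail e, head e) = e.1) (e : T.edgeSet) :
    ¬ side T head e (tail e) := by
  intro h
  have h1 := isAcyclic_iff_forall_adj_isBridge.1 hT.2 (adj_of ho e)
  rw [isBridge_iff, ho e] at h1
  exact h1 h.symm

theorem side_other (ho : ∀ e, s(tail e, head e) = e.1) {e e' : T.edgeSet} (h : e' ≠ e) :
    side T head e (head e') ↔ side T head e (tail e') := by
  have hadj : (T.deleteEdges {e.1}).Adj (tail e') (head e') := by
    rw [deleteEdges_adj]
    refine ⟨adj_of ho e', ?_⟩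
    rw [Set.mem_singleton_iff, ho e']
    exact fun h' => h (Subtype.ext h')
  exact ⟨fun h1 => h1.trans hadj.symm.reachable, fun h1 => h1.trans hadj.reachable⟩

open scoped Classical in
theorem div_eq (f : T.edgeSet → G) (v : V) :
    div tail head f v = ∑ e, ((if head e = v then f e else 0) - if tail e = v then f e else 0) := by
  rw [div, sum_filter, sum_filter, sum_sub_distrib]

open scoped Classical in
/-- summation by parts -/
theorem parts (f : T.edgeSet → G) (p : V → Prop) :
    ∑ w with p w, div tail head f w =
      ∑ e, ((if p (head e) then f e else 0) - if p (tail e) then f e else 0) := by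
  rw [sum_filter]
  have h1 : ∀ w, (if p w then div tail head f w else 0) =
      ∑ e, ((if head e = w then (if p w then f e else 0) else 0) -
        if tail e = w then (if p w then f e else 0) else 0) := by
    intro w
    by_cases hw : p w
    · simp only [if_pos hw]
      exact div_eq f w
    · simp only [if_neg hw, ite_self, sub_zero, sum_const_zero]
  rw [sum_congr rfl fun w _ => h1 w, sum_comm]
  refine sum_congr rfl fun e _ => ?_
  rw [sum_sub_distrib, sum_ite_eq, sum_ite_eq, if_pos (mem_univ _), if_pos (mem_univ _)]

open scoped Classical in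
/-- the sum of the divergences is zero -/
theorem sum_div (f : T.edgeSet → G) : ∑ w, div tail head f w = 0 := by
  have := parts (tail := tail) (head := head) f (fun _ => True)
  simpa using this

open scoped Classical in
/-- the value at an edge is the sum of the divergences on the side of its head -/
theorem flux (hT : T.IsTree) (ho : ∀ e, s(tail e, head e) = e.1) (f : T.edgeSet → G)
    (e : T.edgeSet) : ∑ w with side T head e w, div tail head f w = f e := by
  rw [parts, sum_eq_single e]
  · rw [if_pos (side_head e), if_neg (not_side_tail hT ho e), sub_zero]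
  · intro e' _ he
    by_cases h : side T head e (head e')
    · rw [if_pos h, if_pos ((side_other ho he).1 h), sub_self]
    · rw [if_neg h, if_neg (fun h' => h ((side_other ho he).2 h')), sub_self]
  · intro h
    exact absurd (mem_univ _) h

theorem div_inj (hT : T.IsTree) (ho : ∀ e, s(tail e, head e) = e.1) {f f' : T.edgeSet → G}
    (h : ∀ w, div tail head f w = div tail head f' w) : f = f' := by
  classical
  funext e
  rw [← flux hT ho f e, ← flux hT ho f' e]
  exact sum_congr rfl fun w _ => h w

theorem div_add (f f' : T.edgeSet → G) (w : V) :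
    div tail head (f + f') w = div tail head f w + div tail head f' w := by
  classical
  simp only [div, Pi.add_apply, sum_add_distrib]
  abel

theorem div_neg (f : T.edgeSet → G) (w : V) :
    div tail head (-f) w = - div tail head f w := by
  classical
  simp only [div, Pi.neg_apply, sum_neg_distrib]
  abel

theorem div_zero (w : V) : div tail head (0 : T.edgeSet → G) w = 0 := by
  classical
  simp [div]

/-- the vertex functions which are divergences -/
def Dv (G : Type) [AddCommGroup G] (T : SimpleGraph V) [Fintype T.edgeSet]
    (tail head : T.edgeSet → V) : AddSubgroup (V → G) where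
  carrier := {g | ∃ f : T.edgeSet → G, div tail head f = g}
  add_mem' := by
    rintro _ _ ⟨f, rfl⟩ ⟨f', rfl⟩
    exact ⟨f + f', funext fun w => div_add f f' w⟩
  zero_mem' := ⟨0, funext fun w => div_zero w⟩
  neg_mem' := by
    rintro _ ⟨f, rfl⟩
    exact ⟨-f, funext fun w => div_neg f w⟩

open scoped Classical in
theorem edge_mem (ho : ∀ e, s(tail e, head e) = e.1) (a : G) {u v : V} (h : T.Adj u v) :
    (Pi.single u a - Pi.single v a : V → G) ∈ Dv G T tail head := by
  have key : ∀ e : T.edgeSet, (Pi.single (head e) a - Pi.single (tail e) a : V → G) ∈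
      Dv G T tail head := by
    intro e
    refine ⟨Pi.single e a, ?_⟩
    funext w
    rw [div_eq, sum_eq_single e]
    · simp [Pi.single_apply, eq_comm]
    · intro e' _ he
      simp [Pi.single_apply, he]
    · intro h; exact absurd (mem_univ _) h
  have h1 := key ⟨s(u, v), h⟩
  have h2 := ho ⟨s(u, v), h⟩
  rcases Sym2.eq_iff.1 h2 with ⟨h3, h4⟩ | ⟨h3, h4⟩
  · rw [h3, h4] at h1
    have := (Dv G T tail head).neg_mem h1
    rwa [neg_sub] at this
  · rw [h3, h4] at h1
    exact h1

open scoped Classical in
theorem reach_mem (ho : ∀ e, s(tail e, head e) = e.1) (a : G) {u v : V} (h : T.Reachable u v) :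
    (Pi.single u a - Pi.single v a : V → G) ∈ Dv G T tail head := by
  obtain ⟨p⟩ := h
  induction p with
  | nil => rw [sub_self]; exact zero_mem _
  | cons h _ ih =>
    have := add_mem (edge_mem ho a h) ih
    rwa [sub_add_sub_cancel] at this

/-- every vertex function with sum zero is a divergence -/
theorem div_surj (hT : T.IsTree) (ho : ∀ e, s(tail e, head e) = e.1) (g : V → G)
    (hg : ∑ w, g w = 0) : ∃ f : T.edgeSet → G, ∀ w, div tail head f w = g w := by
  classical
  obtain ⟨v0⟩ := hT.1.nonempty
  have h1 : g = ∑ w, (Pi.single w (g w) - Pi.single v0 (g w) : V → G) := by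
    rw [sum_sub_distrib, Finset.univ_sum_single]
    have : ∑ w, (Pi.single v0 (g w) : V → G) = 0 := by
      funext x
      rw [Finset.sum_apply]
      simp only [Pi.single_apply, Pi.zero_apply]
      split_ifs
      · exact hg
      · simp
    rw [this, sub_zero]
  have h2 : g ∈ Dv G T tail head := by
    rw [h1]
    exact sum_mem fun w _ => reach_mem ho (g w) (hT.1.preconnected w v0)
  obtain ⟨f, hf⟩ := h2
  exact ⟨f, fun w => congrFun hf w⟩

/-- At a leaf the divergence is plus or minus the value at the only edge. -/
theorem leaf (ho : ∀ e, s(tail e, head e) = e.1) {l : V} (hl : ∃! w, T.Adj l w) :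
    ∃ e : T.edgeSet, (∀ f : T.edgeSet → G, div tail head f l = f e) ∨
      ∀ f : T.edgeSet → G, div tail head f l = - f e := by
  classical
  obtain ⟨w, hw, hu⟩ := hl
  have hlw : l ≠ w := hw.ne
  have hinc : ∀ e : T.edgeSet, l = tail e ∨ l = head e → e = ⟨s(l, w), hw⟩ := by
    intro e he
    apply Subtype.ext
    rw [← ho e]
    have ha := adj_of ho e
    rcases he with he | he
    · rw [← he] at ha ⊢
      rw [hu _ ha]
    · rw [← he] at ha ⊢
      rw [hu _ ha.symm, Sym2.eq_swap]
  have h0 := ho ⟨s(l, w), hw⟩
  refine ⟨⟨s(l, w), hw⟩, ?_⟩
  rcases Sym2.eq_iff.1 h0 with ⟨h3, h4⟩ | ⟨h3, h4⟩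
  · right
    intro f
    rw [div_eq, sum_eq_single ⟨s(l, w), hw⟩]
    · rw [h3, h4, if_neg (Ne.symm hlw), if_pos rfl, zero_sub]
    · intro e _ he
      rw [if_neg (fun h => he (hinc e (Or.inr h.symm))),
        if_neg (fun h => he (hinc e (Or.inl h.symm))), sub_self]
    · intro h; exact absurd (mem_univ _) h
  · left
    intro f
    rw [div_eq, sum_eq_single ⟨s(l, w), hw⟩]
    · rw [h3, h4, if_neg (Ne.symm hlw), if_pos rfl, sub_zero]
    · intro e _ he
      rw [if_neg (fun h => he (hinc e (Or.inr h.symm))),
        if_neg (fun h => he (hinc e (Or.inl h.symm))), sub_self]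
    · intro h; exact absurd (mem_univ _) h

end

end Pool.Agent.Y825.TP
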