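import Pool.Agent.TH201.Ph.Main
import Pool.Agent.Y825.TP.Tree
import Pool.Agent.Y825.TP.Toric

set_option autoImplicit false

/-!
# The face of a tripod in a finite tree
-/

namespace Pool.Agent.Y825.TP

open SimpleGraph Finset
open Pool.Agent.H929R3 (co co_ext)

section
variable {V G : Type} [Fintype V] [AddCommGroup G] {T : SimpleGraph V} [Fintype T.edgeSet]
  {tail head : T.edgeSet → V}

/-- flows: zero divergence at all the vertices which are not leaves -/
abbrev Fl (G : Type) [AddCommGroup G] (T : SimpleGraph V) [Fintype T.edgeSet]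
    (tail head : T.edgeSet → V) : Type :=
  {f : T.edgeSet → G // ∀ v, ¬ (∃! w, T.Adj v w) → div tail head f v = 0}

theorem co_sum (r : G × G) : co 0 r + co 1 r + co 2 r = 0 := by
  simp only [co]
  norm_num
  have h1 : ¬ ((1 : Fin 3) = 0) := by decide
  have h2 : ¬ ((2 : Fin 3) = 0) := by decide
  have h3 : ¬ ((2 : Fin 3) = 1) := by decide
  simp only [h2, h3, if_false]
  abel

open scoped Classical in
/-- the divergence of a tripod flow -/
noncomputable def gv (l : Fin 3 → V) (r : G × G) (w : V) : G :=
  ∑ i : Fin 3, if l i = w then co i r else 0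

theorem gv_leaf {l : Fin 3 → V} (hl : Function.Injective l) (r : G × G) (i : Fin 3) :
    gv l r (l i) = co i r := by
  classical
  rw [gv, sum_eq_single i]
  · rw [if_pos rfl]
  · intro j _ hj
    rw [if_neg (fun h => hj (hl h))]
  · intro h; exact absurd (mem_univ _) h

theorem gv_other {l : Fin 3 → V} (r : G × G) {w : V} (h : ∀ i, l i ≠ w) : gv l r w = 0 := by
  classical
  rw [gv]
  exact sum_eq_zero fun i _ => if_neg (h i)

open scoped Classical in
theorem gv_sum (l : Fin 3 → V) (r : G × G) (p : V → Prop) :
    ∑ w with p w, gv l r w = ∑ i, if p (l i) then co i r else 0 := by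
  simp only [gv]
  rw [sum_comm]
  refine sum_congr rfl fun i _ => ?_
  rw [sum_ite_eq]
  simp

theorem gv_total (l : Fin 3 → V) (r : G × G) : ∑ w, gv l r w = 0 := by
  classical
  have := gv_sum l r (fun _ => True)
  simp only [filter_true, if_true, Fin.sum_univ_three] at this
  rw [this, co_sum]

variable (hT : T.IsTree) (ho : ∀ e, s(tail e, head e) = e.1) {l : Fin 3 → V}
  (hl : Function.Injective l) (hleaf : ∀ i, ∃! w, T.Adj (l i) w)

/-- the tripod flows -/
noncomputable def io (hT : T.IsTree) (ho : ∀ e, s(tail e, head e) = e.1)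
    (hleaf : ∀ i, ∃! w, T.Adj (l i) w) (r : G × G) : Fl G T tail head :=
  ⟨(div_surj hT ho (gv l r) (gv_total l r)).choose, fun v hv => by
    rw [(div_surj hT ho (gv l r) (gv_total l r)).choose_spec v]
    exact gv_other r fun i h => hv (h ▸ hleaf i)⟩

theorem div_io (r : G × G) (w : V) : div tail head (io hT ho hleaf r).1 w = gv l r w :=
  (div_surj hT ho (gv l r) (gv_total l r)).choose_spec w

include hl in
theorem io_inj : Function.Injective (io (G := G) hT ho hleaf) := by
  intro r r' h
  apply co_ext
  intro c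
  rw [← gv_leaf hl r c, ← gv_leaf hl r' c, ← div_io hT ho hleaf, ← div_io hT ho hleaf, h]

include hl in
theorem io_range (f : Fl G T tail head) (h : ∀ w, (∀ i, l i ≠ w) → div tail head f.1 w = 0) :
    ∃ r, io hT ho hleaf r = f := by
  classical
  have h0 : div tail head f.1 (l 0) + div tail head f.1 (l 1) + div tail head f.1 (l 2) = 0 := by
    have h1 := sum_div (tail := tail) (head := head) f.1
    have h2 : ∑ w, div tail head f.1 w = ∑ i, div tail head f.1 (l i) := by
      rw [← sum_image (s := (univ : Finset (Fin 3))) (g := l) (f := fun w => div tail head f.1 w)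
        (fun x _ y _ hxy => hl hxy)]
      symm
      apply sum_subset (subset_univ _)
      intro w _ hw
      apply h
      intro i hi
      exact hw (mem_image.2 ⟨i, mem_univ _, hi⟩)
    rw [h2, Fin.sum_univ_three] at h1
    exact h1
  refine ⟨(div tail head f.1 (l 0), div tail head f.1 (l 1)), ?_⟩
  apply Subtype.ext
  apply div_inj hT ho
  intro w
  rw [div_io]
  by_cases hw : ∀ i, l i ≠ w
  · rw [gv_other _ hw, h w hw]
  · push Not at hw
    obtain ⟨i, rfl⟩ := hw
    rw [gv_leaf hl]
    fin_cases i
    · rfl
    · rfl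
    · show - div tail head f.1 (l 0) - div tail head f.1 (l 1) = div tail head f.1 (l 2)
      have key : ∀ a b c : G, a + b + c = 0 → - a - b = c := by
        intro a b c h
        rw [← sub_eq_zero, ← neg_eq_zero, ← h]
        abel
      exact key _ _ _ h0

/-- on each edge the value is a function of one of the three coordinates -/
theorem io_edge (e : T.edgeSet) : ∃ (i : Fin 3) (φ : G → G), ∀ r,
    (io hT ho hleaf r).1 e = φ (co i r) := by
  classical
  have h1 : ∀ r : G × G, (io hT ho hleaf r).1 e =
      ∑ i, if side T head e (l i) then co i r else 0 := by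
    intro r
    rw [← flux hT ho (io hT ho hleaf r).1 e, ← gv_sum]
    exact sum_congr rfl fun w _ => div_io hT ho hleaf r w
  have h2 : ∀ r : G × G, co 0 r + co 1 r = - co 2 r := fun r => by
    rw [eq_neg_iff_add_eq_zero]; exact co_sum r
  have h3 : ∀ r : G × G, co 0 r + co 2 r = - co 1 r := fun r => by
    rw [eq_neg_iff_add_eq_zero, ← co_sum r]; abel
  have h4 : ∀ r : G × G, co 1 r + co 2 r = - co 0 r := fun r => by
    rw [eq_neg_iff_add_eq_zero, ← co_sum r]; abel
  simp only [Fin.sum_univ_three] at h1
  by_cases a0 : side T head e (l 0) <;> by_cases a1 : side T head e (l 1) <;>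
    by_cases a2 : side T head e (l 2) <;>
    simp only [a0, a1, a2, if_true, if_false, add_zero, zero_add] at h1
  · exact ⟨0, fun _ => 0, fun r => by rw [h1, co_sum]⟩
  · exact ⟨2, fun x => -x, fun r => by rw [h1, h2]⟩
  · exact ⟨1, fun x => -x, fun r => by rw [h1, h3]⟩
  · exact ⟨0, fun x => x, fun r => by rw [h1]⟩
  · exact ⟨0, fun x => -x, fun r => by rw [h1, h4]⟩
  · exact ⟨1, fun x => x, fun r => by rw [h1]⟩
  · exact ⟨2, fun x => x, fun r => by rw [h1]⟩
  · exact ⟨0, fun _ => 0, fun r => by rw [h1]⟩

include hl in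
/-- at the edge of the leaf `l i` the value is plus or minus the coordinate `i` -/
theorem io_leaf (i : Fin 3) : ∃ (e : T.edgeSet) (φ : G → G), Function.Injective φ ∧ ∀ r,
    (io hT ho hleaf r).1 e = φ (co i r) := by
  obtain ⟨e, h | h⟩ := leaf (G := G) ho (hleaf i)
  · refine ⟨e, fun x => x, fun x y hxy => hxy, fun r => ?_⟩
    have h1 := h (io hT ho hleaf r).1
    rw [div_io, gv_leaf hl] at h1
    exact h1.symm
  · refine ⟨e, fun x => -x, neg_injective, fun r => ?_⟩
    have h1 := h (io hT ho hleaf r).1
    rw [div_io, gv_leaf hl] at h1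
    show _ = - co i r
    rw [h1, neg_neg]

include hT ho hl hleaf in
/-- The core statement for trees with at least three leaves. -/
theorem core_tree [Fintype G] {K : ℕ} (hK : 1 ≤ K)
    (hG : (5 * K + 2) ^ 2 * (6 * K + 2) < Fintype.card G) :
    ∃ (T0 T1 : Fl G T tail head →₀ ℕ) (g0 : Fl G T tail head),
      (∀ g, T0 g = 0 ∨ T1 g = 0) ∧ T0 ≠ T1 ∧ T0.degree + 5 = 7 * 2 ^ K ∧
      lin (EE fun e (f : Fl G T tail head) => f.1 e) T0 =
        lin (EE fun e (f : Fl G T tail head) => f.1 e) T1 ∧
      ∀ (k : ℕ) (M : Fl G T tail head →₀ ℕ),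
        lin (EE fun e (f : Fl G T tail head) => f.1 e) M =
          lin (EE fun e (f : Fl G T tail head) => f.1 e) (T0 + Finsupp.single g0 k) →
          M = T0 + Finsupp.single g0 k ∨ M = T1 + Finsupp.single g0 k := by
  classical
  obtain ⟨T0, T1, g0, hdisj, hne, hdeg, hlin, hfib⟩ :=
    TH201.Ph.core hK hG (Equiv.refl (G × G))
  have hE : ∀ M M' : (G × G) →₀ ℕ,
      H929R3.lin (fun s => H929R3.E0 ((Equiv.refl (G × G)) s)) M =
        H929R3.lin (fun s => H929R3.E0 ((Equiv.refl (G × G)) s)) M' ↔
      ∀ i : Fin 3, Finsupp.mapDomain (co i) M = Finsupp.mapDomain (co i) M' :=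
    fun M M' => lin_EE_eq (fun (i : Fin 3) (r : G × G) => co i r) M M'
  rw [hE] at hlin
  have hi := io_inj (G := G) hT ho hl hleaf
  set ι : G × G → Fl G T tail head := io hT ho hleaf with hι
  refine ⟨Finsupp.mapDomain ι T0, Finsupp.mapDomain ι T1, ι g0, ?_, ?_, ?_, ?_, ?_⟩
  · intro g
    by_cases hg : g ∈ Set.range ι
    · obtain ⟨r, rfl⟩ := hg
      rw [Finsupp.mapDomain_apply hi, Finsupp.mapDomain_apply hi]
      exact hdisj r
    · left
      exact Finsupp.mapDomain_of_notMem_range _ _ hg
  · intro h
    exact hne (Finsupp.mapDomain_injective hi h)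
  · rw [← hdeg, Finsupp.degree_apply, Finsupp.degree_apply]
    congr 1
    exact Finsupp.sum_mapDomain_index (h := fun _ n => n) (fun _ => rfl) (fun _ _ _ => rfl)
  · rw [lin_EE_eq]
    intro e
    obtain ⟨i, φ, h⟩ := io_edge (G := G) hT ho hleaf e
    have h1 : (fun f : Fl G T tail head => f.1 e) ∘ ι = φ ∘ co i := funext fun r => h r
    rw [← Finsupp.mapDomain_comp, ← Finsupp.mapDomain_comp, h1, Finsupp.mapDomain_comp,
      Finsupp.mapDomain_comp, hlin i]
  · intro k M hM
    have h0 : Finsupp.mapDomain ι T0 + Finsupp.single (ι g0) k =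
        Finsupp.mapDomain ι (T0 + Finsupp.single g0 k) := by
      rw [Finsupp.mapDomain_add, Finsupp.mapDomain_single]
    have h0' : Finsupp.mapDomain ι T1 + Finsupp.single (ι g0) k =
        Finsupp.mapDomain ι (T1 + Finsupp.single g0 k) := by
      rw [Finsupp.mapDomain_add, Finsupp.mapDomain_single]
    rw [h0] at hM ⊢
    rw [h0']
    rw [lin_EE_eq] at hM
    -- the flows of `M` are tripod flows
    have hsupp : ∀ f, M f ≠ 0 → f ∈ Set.range ι := by
      intro f hf
      apply io_range hT ho hl hleaf
      intro w hw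
      by_cases hlw : ∃! u, T.Adj w u
      · obtain ⟨e, he⟩ := leaf (G := G) ho hlw
        have h2 : ∀ r, (ι r).1 e = 0 := by
          intro r
          have h3 : div tail head (ι r).1 w = 0 := by
            rw [hι, div_io, gv_other r hw]
          rcases he with he | he
          · have := he (ι r).1
            rw [h3] at this
            exact this.symm
          · have := he (ι r).1
            rw [h3, eq_comm, neg_eq_zero] at this
            exact this
        have h4 : f.1 e = 0 := by
          by_contra hne0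
          have h5 := mapDomain_ne (fun f : Fl G T tail head => f.1 e) M f hf
          rw [hM e, ← Finsupp.mapDomain_comp] at h5
          apply h5
          apply mapDomain_zero_of
          intro r _ h6
          apply hne0
          rw [← h6]
          exact h2 r
        rcases he with he | he
        · rw [he, h4]
        · rw [he, h4, neg_zero]
      · exact f.2 w hlw
    obtain ⟨M0, rfl⟩ : ∃ M0 : (G × G) →₀ ℕ, Finsupp.mapDomain ι M0 = M := by
      refine ⟨Finsupp.comapDomain ι M hi.injOn, ?_⟩
      apply Finsupp.mapDomain_comapDomain ι hi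
      intro f hf
      exact hsupp f (Finsupp.mem_support_iff.1 hf)
    have h7 : ∀ i : Fin 3, Finsupp.mapDomain (co i) M0 =
        Finsupp.mapDomain (co i) (T0 + Finsupp.single g0 k) := by
      intro i
      obtain ⟨e, φ, hφ, h⟩ := io_leaf (G := G) hT ho hl hleaf i
      have h1 : (fun f : Fl G T tail head => f.1 e) ∘ ι = φ ∘ co i := funext fun r => h r
      have h8 := hM e
      rw [← Finsupp.mapDomain_comp, ← Finsupp.mapDomain_comp, h1, Finsupp.mapDomain_comp,
        Finsupp.mapDomain_comp] at h8
      exact Finsupp.mapDomain_injective hφ h8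
    rcases hfib k M0 ((hE _ _).2 h7) with h | h
    · left; rw [h]
    · right; rw [h]

end

end Pool.Agent.Y825.TP
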